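import Mathlib
import Pool.Agent.R97.BohrDens

/-!
# MP_c4e285_co : no Bohr set in `B + c + A_i` for a single element `c`

The group is the group `G` of binary sequences having one of the periods `NN k`.  There are a set
`B` of positive upper Banach density and a partition `G = A_0 ∪ A_1` such that for every `c ∈ G`
and every `i` the set `B + c + A_i` contains no Bohr set.
-/

namespace Pool.Agent.Results.MP_c4e285_co.NoBohr

open Filter Pool.Agent.R97.BohrPart Pool.Agent.R97.BohrDens Pool.Agent.R97.SignMoments

/-! ## Definitions -/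

/-- The Bohr set of the characters `χ_1, ..., χ_k` and radius `η`. -/
def bohr {G : Type} [AddCommGroup G] {k : ℕ} (χ : Fin k → AddChar G Circle) (η : ℝ) : Set G :=
  {g | ∀ j, ‖((χ j g : Circle) : ℂ) - 1‖ < η}

/-- The set contains a Bohr set. -/
def ContainsBohr {G : Type} [AddCommGroup G] (S : Set G) : Prop :=
  ∃ (k : ℕ) (χ : Fin k → AddChar G Circle) (η : ℝ), 0 < η ∧ bohr χ η ⊆ S

open Classical in
/-- Folner sequence of finite sets. -/
def IsFolner {G : Type} [AddCommGroup G] (F : ℕ → Finset G) : Prop :=
  (∀ n, (F n).Nonempty) ∧ ∀ g : G, Tendsto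
    (fun n => ((symmDiff ((F n).image (fun x => g + x)) (F n)).card : ℝ) / ((F n).card : ℝ))
    atTop (nhds 0)

open Classical in
/-- Upper Banach density. -/
noncomputable def upperBanach {G : Type} [AddCommGroup G] (A : Set G) : ℝ :=
  sSup {x : ℝ | ∃ F : ℕ → Finset G, IsFolner F ∧
    x = limsup (fun n => (((F n).filter (fun g => g ∈ A)).card : ℝ) / ((F n).card : ℝ)) atTop}

/-! ## General facts on the density -/

open Classical in
theorem dens_le_one {G : Type} (A : Set G) (F : Finset G) :
    ((F.filter (fun g => g ∈ A)).card : ℝ) / (F.card : ℝ) ≤ 1 := by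
  apply div_le_one_of_le₀
  · exact_mod_cast Finset.card_filter_le _ _
  · positivity

open Classical in
theorem le_upperBanach {G : Type} [AddCommGroup G] {A : Set G} {F : ℕ → Finset G}
    (hF : IsFolner F) {c : ℝ}
    (h : ∀ n, c ≤ (((F n).filter (fun g => g ∈ A)).card : ℝ) / ((F n).card : ℝ)) :
    c ≤ upperBanach A := by
  have hbdd : ∀ E : ℕ → Finset G, IsBoundedUnder (· ≤ ·) atTop
      (fun n => (((E n).filter (fun g => g ∈ A)).card : ℝ) / ((E n).card : ℝ)) :=
    fun E => isBoundedUnder_of ⟨1, fun n => dens_le_one A (E n)⟩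
  have hcob : ∀ E : ℕ → Finset G, IsCoboundedUnder (· ≤ ·) atTop
      (fun n => (((E n).filter (fun g => g ∈ A)).card : ℝ) / ((E n).card : ℝ)) := by
    intro E
    refine IsBoundedUnder.isCoboundedUnder_le (isBoundedUnder_of ⟨0, fun n => ?_⟩)
    show (0 : ℝ) ≤ _
    positivity
  have h1 : c ≤ limsup (fun n => (((F n).filter (fun g => g ∈ A)).card : ℝ) /
      ((F n).card : ℝ)) atTop :=
    le_limsup_of_frequently_le (Frequently.of_forall h) (hbdd F)
  refine le_trans h1 (le_csSup ⟨1, ?_⟩ ⟨F, hF, rfl⟩)
  rintro x ⟨E, _, rfl⟩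
  exact limsup_le_of_le (hcob E) (Eventually.of_forall fun n => dens_le_one A (E n))

/-! ## The group -/

/-- The group of binary sequences with one of the periods `NN k`. -/
def GG : AddSubgroup (ℕ → ZMod 2) where
  carrier := {f | ∃ k, Per k f}
  zero_mem' := ⟨0, Per.zero 0⟩
  add_mem' := by
    rintro f g ⟨k, hk⟩ ⟨l, hl⟩
    exact ⟨max k l, (hk.mono (le_max_left _ _)).add (hl.mono (le_max_right _ _))⟩
  neg_mem' := by
    rintro f ⟨k, hk⟩
    refine ⟨k, fun i => ?_⟩
    show -f (i + NN k) = -f i
    rw [hk i]

/-- The element of the group given by a finite word. -/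
def emb (k : ℕ) (x : Fin (NN k) → ZMod 2) : GG := ⟨ext k x, k, ext_per k x⟩

theorem emb_injective (k : ℕ) : Function.Injective (emb k) := by
  intro x y h
  exact ext_injective k (congrArg Subtype.val h)

theorem emb_surj {k : ℕ} {g : GG} (h : Per k g.1) : ∃ x, emb k x = g :=
  ⟨fun i => g.1 i, Subtype.ext (ext_surj k h)⟩

instance : Countable GG := by
  have : Function.Surjective (fun p : Σ k, (Fin (NN k) → ZMod 2) => emb p.1 p.2) := by
    rintro ⟨f, k, hk⟩
    obtain ⟨x, hx⟩ := emb_surj (g := ⟨f, k, hk⟩) hk
    exact ⟨⟨k, x⟩, hx⟩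
  exact this.countable

theorem gadd_self (g : GG) : g + g = 0 := Subtype.ext (add_self g.1)

/-- The constant sequence `1`. -/
def gone : GG := ⟨1, 0, Per.one 0⟩

open Classical in
/-- The finite subgroup of all elements with period `NN k`. -/
noncomputable def FF (k : ℕ) : Finset GG := Finset.univ.image (emb k)

theorem mem_FF {k : ℕ} {g : GG} : g ∈ FF k ↔ Per k g.1 := by
  unfold FF
  simp only [Finset.mem_image, Finset.mem_univ, true_and]
  constructor
  · rintro ⟨x, rfl⟩
    exact ext_per k x
  · exact fun h => emb_surj h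

open Classical in
theorem card_FF (k : ℕ) : (FF k).card = 2 ^ NN k := by
  unfold FF
  rw [Finset.card_image_of_injective _ (emb_injective k), Finset.card_univ]
  simp

open Classical in
theorem folner : IsFolner (fun n => FF (n + 1)) := by
  refine ⟨fun n => ⟨0, mem_FF.2 (Per.zero _)⟩, fun g => ?_⟩
  obtain ⟨l, hl⟩ := g.2
  apply tendsto_const_nhds.congr'
  filter_upwards [eventually_ge_atTop l] with n hn
  have hg : Per (n + 1) g.1 := hl.mono (by omega)
  have himg : ∀ inst : DecidableEq GG,
      @Finset.image _ _ inst (fun x => g + x) (FF (n + 1)) = FF (n + 1) := by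
    intro inst
    ext x
    rw [Finset.mem_image, mem_FF]
    constructor
    · rintro ⟨y, hy, rfl⟩
      exact hg.add (mem_FF.1 hy)
    · intro hx
      refine ⟨g + x, mem_FF.2 (hg.add hx), ?_⟩
      rw [← add_assoc, gadd_self, zero_add]
  have h0 : ∀ inst : DecidableEq GG,
      @symmDiff (Finset GG) _ (@Finset.instSDiff GG inst) (FF (n + 1)) (FF (n + 1)) = ∅ := by
    intro inst
    exact symmDiff_self _
  rw [himg _, h0 _]
  simp

/-! ## The sparse set is dense for the Bohr topology -/

/-- The indicator of the residues in `U` modulo `NN k`. -/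
def ind (k : ℕ) (U : Finset ℕ) : GG :=
  ⟨fun i => if i % NN k ∈ U then 1 else 0, k, fun i => by simp [Nat.add_mod_right]⟩

theorem ind_add (k : ℕ) (U V : Finset ℕ) : ind k U + ind k V = ind k (symmDiff U V) := by
  apply Subtype.ext
  funext i
  show (if i % NN k ∈ U then (1 : ZMod 2) else 0) + (if i % NN k ∈ V then 1 else 0) =
    if i % NN k ∈ symmDiff U V then 1 else 0
  have h : (1 : ZMod 2) + 1 = 0 := by decide
  by_cases h1 : i % NN k ∈ U <;> by_cases h2 : i % NN k ∈ V <;>
    simp [Finset.mem_symmDiff, h1, h2, h]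

theorem wt_ind {k : ℕ} {U : Finset ℕ} : wt k (ind k U).1 ≤ U.card := by
  unfold wt
  apply Finset.card_le_card
  intro i hi
  rw [Finset.mem_filter, Finset.mem_range] at hi
  obtain ⟨h1, h2⟩ := hi
  have h3 : (if i % NN k ∈ U then (1 : ZMod 2) else 0) = 1 := h2
  by_contra h4
  rw [Nat.mod_eq_of_lt h1, if_neg h4] at h3
  exact absurd h3 (by decide)

theorem ind_surj {k : ℕ} {g : GG} (hg : Per k g.1) : ∃ U, ind k U = g := by
  refine ⟨(Finset.range (NN k)).filter (fun i => g.1 i = 1), Subtype.ext ?_⟩
  funext i
  show (if i % NN k ∈ (Finset.range (NN k)).filter (fun i => g.1 i = 1) then (1 : ZMod 2) else 0) =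
    g.1 i
  simp only [Finset.mem_filter, Finset.mem_range, Nat.mod_lt _ (NN_pos k), true_and,
    hg.map_mod_nat]
  rcases zmod2_cases (g.1 i) with h | h
  · rw [h]; simp
  · rw [h]; simp

theorem char_sq (χ : AddChar GG Circle) (g : GG) : χ g = 1 ∨ χ g = -1 := by
  have h : χ g * χ g = 1 := by
    rw [← AddChar.map_add_eq_mul, gadd_self, AddChar.map_zero_eq_one]
  have h2 : ((χ g : Circle) : ℂ) * ((χ g : Circle) : ℂ) = 1 := by
    have := congrArg (fun z : Circle => (z : ℂ)) h
    simpa using this
  rcases mul_self_eq_one_iff.1 h2 with h3 | h3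
  · left; exact Circle.ext (by simpa using h3)
  · right; exact Circle.ext (by simpa using h3)

/-- Reduction to few residues. -/
theorem few {m : ℕ} (χ : Fin m → AddChar GG Circle) (k : ℕ) :
    ∀ (n : ℕ) (U : Finset ℕ), U.card = n →
      ∃ V : Finset ℕ, V.card ≤ m ∧ ∀ j, χ j (ind k V) = χ j (ind k U) := by
  classical
  intro n
  induction n using Nat.strong_induction_on with
  | _ n ih =>
    intro U hU
    by_cases hm : n ≤ m
    · exact ⟨U, by omega, fun _ => rfl⟩
    · push Not at hm
      -- pigeonhole
      let β : Finset ℕ → (Fin m → Bool) := fun V j => decide (χ j (ind k V) = 1)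
      have hcard : (Finset.univ : Finset (Fin m → Bool)).card < U.powerset.card := by
        rw [Finset.card_powerset, hU, Finset.card_univ]
        simp only [Fintype.card_pi, Fintype.card_bool, Finset.prod_const, Finset.card_univ,
          Fintype.card_fin]
        exact Nat.pow_lt_pow_right (by norm_num) hm
      obtain ⟨V, hV, W, hW, hne, heq⟩ := Finset.exists_ne_map_eq_of_card_lt_of_maps_to hcard
        (f := β) (fun _ _ => Finset.mem_univ _)
      rw [Finset.mem_powerset] at hV hW
      have hχ : ∀ j, χ j (ind k (symmDiff V W)) = 1 := by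
        intro j
        rw [← ind_add, AddChar.map_add_eq_mul]
        have h1 : decide (χ j (ind k V) = 1) = decide (χ j (ind k W) = 1) := congrFun heq j
        rcases char_sq (χ j) (ind k V) with h2 | h2 <;> rcases char_sq (χ j) (ind k W) with h3 | h3
        · rw [h2, h3, one_mul]
        · exfalso
          rw [h2, h3] at h1
          simp only [decide_true] at h1
          have h4 : (-1 : Circle) = 1 := of_decide_eq_true h1.symm
          have := congrArg (fun z : Circle => (z : ℂ)) h4
          norm_num at this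
        · exfalso
          rw [h2, h3] at h1
          simp only [decide_true] at h1
          have h4 : (-1 : Circle) = 1 := of_decide_eq_true h1
          have := congrArg (fun z : Circle => (z : ℂ)) h4
          norm_num at this
        · rw [h2, h3, neg_mul_neg, one_mul]
      set T := symmDiff V W with hT
      have hTU : T ⊆ U := by
        intro i hi
        rw [hT, Finset.mem_symmDiff] at hi
        rcases hi with h | h
        · exact hV h.1
        · exact hW h.1
      have hTne : T.Nonempty := by
        rw [Finset.nonempty_iff_ne_empty]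
        intro h
        apply hne
        have : symmDiff V W = ⊥ := h
        exact symmDiff_eq_bot.1 this
      have hcardT : (U \ T).card < n := by
        rw [Finset.card_sdiff_of_subset hTU, hU]
        have := hTne.card_pos
        omega
      obtain ⟨V', hV', hχ'⟩ := ih (U \ T).card hcardT (U \ T) rfl
      refine ⟨V', hV', fun j => ?_⟩
      rw [hχ']
      have h1 : symmDiff (U \ T) T = U := by
        ext i
        rw [Finset.mem_symmDiff, Finset.mem_sdiff]
        constructor
        · rintro (⟨⟨h1, _⟩, _⟩ | ⟨h1, _⟩)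
          · exact h1
          · exact hTU h1
        · intro h
          by_cases hi : i ∈ T
          · right; exact ⟨hi, fun h' => h'.2 hi⟩
          · left; exact ⟨⟨h, hi⟩, hi⟩
      have h2 : ind k U = ind k (U \ T) + ind k T := by rw [ind_add, h1]
      rw [h2, AddChar.map_add_eq_mul, hχ j, mul_one]

/-- Every class modulo finitely many characters contains an element of the sparse set. -/
theorem DD_dense {m : ℕ} (χ : Fin m → AddChar GG Circle) (g : GG) :
    ∃ d : GG, DD d.1 ∧ ∀ j, χ j d = χ j g := by
  obtain ⟨l, hl⟩ := g.2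
  have hk : Per (max l m) g.1 := hl.mono (le_max_left _ _)
  obtain ⟨U, hU⟩ := ind_surj hk
  obtain ⟨V, hV, hχ⟩ := few χ (max l m) U.card U rfl
  refine ⟨ind (max l m) V, ⟨max l m, ?_, ?_⟩, fun j => ?_⟩
  · intro i
    show (if (i + NN (max l m)) % NN (max l m) ∈ V then (1 : ZMod 2) else 0) =
      if i % NN (max l m) ∈ V then 1 else 0
    rw [Nat.add_mod_right]
  · exact le_trans wt_ind (le_trans hV (le_max_right _ _))
  · rw [hχ, hU]

theorem bohr_meets {m : ℕ} (χ : Fin m → AddChar GG Circle) {η : ℝ} (hη : 0 < η) (g : GG) :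
    ∃ d : GG, DD d.1 ∧ d + g ∈ bohr χ η := by
  obtain ⟨d, hd, hχ⟩ := DD_dense χ g
  refine ⟨d, hd, fun j => ?_⟩
  have : χ j (d + g) = 1 := by
    rw [AddChar.map_add_eq_mul, hχ, ← AddChar.map_add_eq_mul, gadd_self, AddChar.map_zero_eq_one]
  rw [this]
  simpa using hη

/-! ## The sets -/

/-- The dense set. -/
def B : Set GG := {g | BB g.1}

/-- The second part of the partition: `D + B`. -/
def A1 : Set GG := {g | ∃ d b : GG, DD d.1 ∧ BB b.1 ∧ g = d + b}

/-- The partition. -/
def A (i : Fin 2) : Set GG := if i = 0 then A1ᶜ else A1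

open Classical in
theorem dens_B (n : ℕ) : (31 / 512 : ℝ) ≤
    (((FF (n + 1)).filter (fun g => g ∈ B)).card : ℝ) / ((FF (n + 1)).card : ℝ) := by
  rw [card_FF, le_div_iff₀ (by positivity)]
  push_cast
  refine le_trans (good_card (n + 1)) ?_
  have hinj : Function.Injective (fun x : Fin (NN (n + 1)) → ZMod 2 =>
      ((⟨tt n, n + 1, tt_per n⟩ : GG) + emb (n + 1) x)) := by
    intro x y h
    exact emb_injective _ (add_left_cancel h)
  rw [← Finset.card_image_of_injective _ hinj]
  have hsub : ((Finset.univ.filter
      (fun x : Fin (NN (n + 1)) → ZMod 2 => Good (n + 1) (ext (n + 1) x))).image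
      (fun x : Fin (NN (n + 1)) → ZMod 2 =>
      ((⟨tt n, n + 1, tt_per n⟩ : GG) + emb (n + 1) x))) ⊆
      (FF (n + 1)).filter (fun g => g ∈ B) := by
    intro g hg
    obtain ⟨x, hx, rfl⟩ := Finset.mem_image.1 hg
    rw [Finset.mem_filter] at hx
    rw [Finset.mem_filter]
    refine ⟨mem_FF.2 ((tt_per n).add (ext_per _ x)), n, ext (n + 1) x, hx.2, rfl⟩
  exact_mod_cast Finset.card_le_card hsub

/-- **MP_c4e285_co (Q1), negative answer.**  There are a countable abelian group `G`, a set `B` of
positive upper Banach density and a partition of `G` into two sets such that for **every** element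
`c` of `G` neither of the two sets `B + c + A_i` contains a Bohr set. -/
theorem result :
    ∃ (G : Type) (_ : AddCommGroup G) (_ : Countable G) (B C : Set G) (A : Fin 2 → Set G),
      0 < upperBanach B ∧ 0 < upperBanach C ∧ C = Set.univ ∧
      Disjoint (A 0) (A 1) ∧ A 0 ∪ A 1 = Set.univ ∧
      ∀ c ∈ C, ∀ i : Fin 2,
        ¬ ContainsBohr {x : G | ∃ b ∈ B, ∃ a ∈ A i, x = b + c + a} := by
  refine ⟨GG, inferInstance, inferInstance, B, Set.univ, A, ?_, ?_, rfl, ?_, ?_, ?_⟩
  · have := le_upperBanach folner (A := B) (c := 31 / 512) dens_B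
    linarith
  · have h1 : (1 : ℝ) ≤ upperBanach (Set.univ : Set GG) := by
      apply le_upperBanach folner
      intro n
      rw [card_FF]
      simp only [Set.mem_univ, Finset.filter_true, card_FF]
      rw [div_self (by positivity)]
    linarith
  · show Disjoint A1ᶜ A1
    exact disjoint_compl_left
  · show A1ᶜ ∪ A1 = Set.univ
    exact Set.compl_union_self A1
  · rintro c - i ⟨m, χ, η, hη, hsub⟩
    rcases (show i = 0 ∨ i = 1 by fin_cases i <;> simp) with rfl | rfl
    · -- `B + A_0` misses `D`
      obtain ⟨d, hd, hmem⟩ := bohr_meets χ hη c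
      obtain ⟨b, hb, a, ha, heq⟩ := hsub hmem
      have ha' : a ∉ A1 := ha
      apply ha'
      refine ⟨d, b, hd, hb, ?_⟩
      have h1 : d = b + a := by
        calc d = (d + c) + c := by rw [add_assoc, gadd_self, add_zero]
          _ = (b + c + a) + c := by rw [heq]
          _ = b + a + (c + c) := by abel
          _ = b + a := by rw [gadd_self, add_zero]
      rw [h1]
      calc a = a + (b + b) := by rw [gadd_self, add_zero]
        _ = b + a + b := by abel
    · -- `B + A_1` misses `1 + D`
      obtain ⟨d, hd, hmem⟩ := bohr_meets χ hη (gone + c)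
      obtain ⟨b, hb, a, ha, heq⟩ := hsub hmem
      have ha' : a ∈ A1 := ha
      obtain ⟨d', b', hd', hb', rfl⟩ := ha'
      have h1 : b + b' = gone + d + d' := by
        calc b + b' = (b + c + (d' + b')) + c + d' := by
              have e : (b + c + (d' + b')) + c + d' = b + b' + (c + c) + (d' + d') := by abel
              rw [e, gadd_self, gadd_self, add_zero, add_zero]
          _ = (d + (gone + c)) + c + d' := by rw [heq]
          _ = gone + d + d' + (c + c) := by abel
          _ = gone + d + d' := by rw [gadd_self, add_zero]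
      exact BB_sum hb hb' hd hd' (congrArg Subtype.val h1)

end Pool.Agent.Results.MP_c4e285_co.NoBohr
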